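import Pool.Agent.Helper31.BC.Stmts

set_option autoImplicit false

/-!
# Module LB: the lower bound from the interpolation
-/

namespace Pool.Agent.Helper31.BC

open Pool.Agent.Helper38.MR (Edge Graph clq mpt Gate Simple out trv)

theorem lb_val_nonneg {n : ℕ} (e : Pair n) (x : Pair n → ℤ) : val (nonneg e) x = (x e : ℝ) := by
  unfold val nonneg
  simp only [ite_mul, one_mul, zero_mul]
  rw [Finset.sum_ite_eq' Finset.univ e]
  simp

/-- The two values of the simple function which belongs to a coordinate. -/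
theorem lb_values {m : ℕ} {A B : Type} [Finite A] [Nonempty A] [Finite B] (gA : A → Graph m)
    (gB : B → Graph m) (u : A → ℤ) (w : B → ℤ) (ε : Edge m)
    (h : ∀ α β, u α + w β < 0 → gA α ε = true ∧ gB β ε = false) :
    ∃ R : Graph m → ℝ, Simple R ∧ (∀ α, R (gA α) ≤ (u α : ℝ)) ∧
      ∀ β, -(w β : ℝ) ≤ R (gB β) := by
  obtain ⟨α₀, hα₀⟩ := Finite.exists_min u
  have h0 : ∀ β, gB β ε = true → -(w β : ℝ) ≤ (u α₀ : ℝ) := by
    intro β hβ
    have h1 : 0 ≤ u α₀ + w β := by
      by_contra hcon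
      have h2 := (h α₀ β (not_le.1 hcon)).2
      rw [hβ] at h2
      exact Bool.noConfusion h2
    have h3 : -w β ≤ u α₀ := by omega
    exact_mod_cast h3
  by_cases hex : ∃ α, gA α ε = false
  · obtain ⟨α', hα'⟩ := hex
    have hne : Nonempty {α : A // gA α ε = false} := ⟨⟨α', hα'⟩⟩
    obtain ⟨⟨α₁, hα₁⟩, hmin⟩ := Finite.exists_min (fun α : {α : A // gA α ε = false} => u α.1)
    refine ⟨fun p => if p ε = true then (u α₀ : ℝ) else (u α₁ : ℝ),
      Or.inr ⟨ε, _, _, by exact_mod_cast hα₀ α₁, fun x => rfl⟩, ?_, ?_⟩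
    · intro α
      by_cases hα : gA α ε = true
      · simp only [hα, if_true]
        exact_mod_cast hα₀ α
      · have hα2 : gA α ε = false := by
          cases hh : gA α ε with
          | true => exact absurd hh hα
          | false => rfl
        simp only [hα2, Bool.false_eq_true, if_false]
        exact_mod_cast hmin ⟨α, hα2⟩
    · intro β
      by_cases hβ : gB β ε = true
      · simp only [hβ, if_true]
        exact h0 β hβ
      · simp only [hβ, if_false]
        have h1 : 0 ≤ u α₁ + w β := by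
          by_contra hcon
          have h2 := (h α₁ β (not_le.1 hcon)).1
          rw [hα₁] at h2
          exact Bool.noConfusion h2
        have h3 : -w β ≤ u α₁ := by omega
        exact_mod_cast h3
  · obtain ⟨b, hb⟩ := (Set.finite_range (fun β => -(w β : ℝ))).bddAbove
    refine ⟨fun p => if p ε = true then (u α₀ : ℝ) else max (u α₀ : ℝ) b,
      Or.inr ⟨ε, _, _, le_max_left _ _, fun x => rfl⟩, ?_, ?_⟩
    · intro α
      have hα : gA α ε = true := by
        cases hh : gA α ε with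
        | true => rfl
        | false => exact absurd ⟨α, hh⟩ hex
      simp only [hα, if_true]
      exact_mod_cast hα₀ α
    · intro β
      by_cases hβ : gB β ε = true
      · simp only [hβ, if_true]
        exact h0 β hβ
      · simp only [hβ, if_false]
        exact (hb ⟨β, rfl⟩).trans (le_max_right _ _)

open Classical in
theorem lb_pair_const {m : ℕ} (r : Fn m) (p : Graph m) :
    pair (fun _ => (0 : ℝ)) r p = ((Finset.univ.filter fun q : Graph m => r q < r p).card : ℝ) := by
  unfold pair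
  congr 2
  ext q
  simp only [Finset.mem_filter, Finset.mem_univ, true_and, lt_irrefl, false_or]

theorem lb_pair_simple {m : ℕ} (r : Fn m) (h : Simple r) :
    Simple (pair (fun _ => (0 : ℝ)) r) := by
  classical
  rcases h with ⟨a, ha⟩ | ⟨e, a, b, hab, hr⟩
  · left
    refine ⟨0, fun x => ?_⟩
    rw [lb_pair_const]
    simp only [ha, lt_irrefl, Finset.filter_false, Finset.card_empty, Nat.cast_zero]
  · right
    refine ⟨e, 0, ((Finset.univ.filter fun q : Graph m => r q < b).card : ℝ),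
      Nat.cast_nonneg _, fun x => ?_⟩
    rw [lb_pair_const]
    by_cases hx : x e = true
    · rw [if_pos hx]
      have h1 : r x = a := by rw [hr, if_pos hx]
      rw [h1]
      have h2 : (Finset.univ.filter fun q : Graph m => r q < a) = ∅ := by
        rw [Finset.filter_eq_empty_iff]
        intro q _
        rw [hr q]
        split_ifs
        · exact lt_irrefl a
        · exact not_lt.2 hab
      have h3 : (Finset.univ.filter fun q : Graph m => r q < a).card = 0 := by
        rw [h2, Finset.card_empty]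
      simpa using h3
    · rw [if_neg hx]
      have h1 : r x = b := by rw [hr, if_neg hx]
      rw [h1]

theorem lb_card (s : ℕ) (hs : 3 ≤ s) :
    Nat.card (Fin (4 * s ^ 2 + 1) → Fin (8 * s)) + 1 ≤ 2 ^ ((4 * s ^ 2 + 1) * (8 * s)) := by
  rw [Nat.card_eq_fintype_card, Fintype.card_fun, Fintype.card_fin, Fintype.card_fin]
  have h1 : (8 * s) ^ (4 * s ^ 2 + 1) < (8 * s + 1) ^ (4 * s ^ 2 + 1) :=
    Nat.pow_lt_pow_left (Nat.lt_succ_self _) (by omega)
  have h2 : (8 * s + 1) ^ (4 * s ^ 2 + 1) ≤ (2 ^ (8 * s)) ^ (4 * s ^ 2 + 1) :=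
    Nat.pow_le_pow_left (Nat.lt_two_pow_self) _
  have h3 : (2 ^ (8 * s)) ^ (4 * s ^ 2 + 1) = 2 ^ ((4 * s ^ 2 + 1) * (8 * s)) := by
    rw [← pow_mul, mul_comm]
  rw [h3] at h2
  omega

theorem st_LB (hCIRC : ST_CIRC) (hEV : ST_EV) (hCOR : ST_COR) : ST_LB := by
  classical
  intro s hs n K f g hS t href
  have hne : Nonempty (Fin (8 * s)) := ⟨⟨0, by omega⟩⟩
  obtain ⟨N, E, hN, hE⟩ := hEV n ((4 * s ^ 2 + 1) * (8 * s)) (Fin (4 * s ^ 2 + 1) → Fin (8 * s))
    (Fin ((4 * s ^ 2 + 1) * (8 * s)) → Fin (4 * s ^ 2)) K f g hS.mem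
    ((4 * s ^ 2 + 1) * (8 * s)) (lb_card s hs) (Set.range nonneg) t href
  -- the simple functions
  have hR : ∀ l : Ineq n, ∃ R : Graph ((4 * s ^ 2 + 1) * (8 * s)) → ℝ, Simple R ∧
      (l ∈ Set.range (nonneg (n := n)) → (∀ α, R (clq (trv α)) ≤ val l (f α)) ∧
        ∀ β, l.b - val l (g β) ≤ R (mpt β)) := by
    intro l
    by_cases hl : l ∈ Set.range (nonneg (n := n))
    · obtain ⟨e, rfl⟩ := hl
      obtain ⟨ε, hε⟩ := hS.neg e
      obtain ⟨R, h1, h2, h3⟩ := lb_values (fun σ : Fin (4 * s ^ 2 + 1) → Fin (8 * s) =>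
        clq (trv σ)) (fun χ : Fin ((4 * s ^ 2 + 1) * (8 * s)) → Fin (4 * s ^ 2) => mpt χ)
        (fun α => f α e) (fun β => g β e) ε hε
      refine ⟨R, h1, fun _ => ⟨?_, ?_⟩⟩
      · intro α
        rw [lb_val_nonneg]
        exact h2 α
      · intro β
        rw [lb_val_nonneg]
        have h4 := h3 β
        have h5 : (nonneg e : Ineq n).b = 0 := rfl
        rw [h5, zero_sub]
        exact h4
    · exact ⟨fun _ => 0, Or.inl ⟨0, fun _ => rfl⟩, fun h => absurd h hl⟩
  choose R hR1 hR2 using hR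
  obtain ⟨𝓖, hExt, hG⟩ := hE.prog {F | Simple F} (fun _ => 0) (fun p l => R l p)
    (Or.inl ⟨0, fun _ => rfl⟩)
    (fun l _ => ⟨fun _ => 0, fun _ _ _ => le_refl _, lb_pair_simple _ (hR1 l)⟩)
  obtain ⟨C, hC1, hC2, hC3⟩ := hCIRC ((4 * s ^ 2 + 1) * (8 * s)) N 𝓖 _ hExt hG
  have hleft : ∀ σ : Fin (4 * s ^ 2 + 1) → Fin (8 * s),
      E (fun l => R l (clq (trv σ))) = 0 :=
    fun σ => hE.left σ _ (fun l hl => (hR2 l hl).1 σ)
  have hright : ∀ χ : Fin ((4 * s ^ 2 + 1) * (8 * s)) → Fin (4 * s ^ 2),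
      E (fun l => R l (mpt χ)) = 1 :=
    fun χ => hE.right χ _ (fun l hl => (hR2 l hl).2 χ)
  have hfin := hCOR s hs {F : Fn ((4 * s ^ 2 + 1) * (8 * s)) // Simple F} C (fun e => e.1) 0 hC1
    (fun e => e.2) (by
      intro σ
      rw [hC3, lb_pair_const, hleft σ]
      have h2 : (Finset.univ.filter fun q : Graph ((4 * s ^ 2 + 1) * (8 * s)) =>
          E (fun l => R l q) < 0) = ∅ := by
        rw [Finset.filter_eq_empty_iff]
        intro q _
        rcases hE.bit (fun l => R l q) with h | h <;> rw [h]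
        · exact lt_irrefl _
        · exact not_lt.2 zero_le_one
      rw [h2, Finset.card_empty, Nat.cast_zero]) (by
      intro χ
      rw [hC3, lb_pair_const, hright χ]
      have h2 : 0 < (Finset.univ.filter fun q : Graph ((4 * s ^ 2 + 1) * (8 * s)) =>
          E (fun l => R l q) < 1).card := by
        rw [Finset.card_pos]
        refine ⟨clq (trv fun _ => ⟨0, by omega⟩), ?_⟩
        rw [Finset.mem_filter]
        refine ⟨Finset.mem_univ _, ?_⟩
        rw [hleft]
        exact zero_lt_one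
      exact_mod_cast h2)
  calc 2 ^ s ≤ 2 * C.length := hfin
    _ ≤ 2 * (3 * N + 1) := by omega
    _ = 6 * N + 2 := by ring
    _ ≤ 6 * (2 * t * ((4 * s ^ 2 + 1) * (8 * s) + 1) ^ Nat.log 2 t) + 2 := by
      have := Nat.mul_le_mul_left 6 hN
      omega
    _ = 12 * t * ((4 * s ^ 2 + 1) * (8 * s) + 1) ^ Nat.log 2 t + 2 := by ring

end Pool.Agent.Helper31.BC
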